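import Pool.Agent.H373.CH.G2

/-!
# Alperin's weight conjecture and the groups `M_n(Z/q) ⋊ A_n`

Let `k` be an algebraically closed field of characteristic `p`, `q > 1` prime to `p`, and let
`X_n = M_n(Z/q) ⋊ A_n`, where the alternating group acts on the additive group of the `n × n` matrices
over `Z/q` by conjugation with permutation matrices.

For every block `b` of `kG`, `G` an arbitrary finite group, and every `n ≥ |G| ^ 2 + 3 |G|` there is a
block `b'` of `k X_n` such that `k X_n b'` is a matrix ring over `kGb`, the defect groups of `b` and
`b'` are isomorphic, the numbers of simple modules of `kGb` and `k X_n b'` agree, and the numbers of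
orbits of weights of `b` and `b'` agree. So Alperin's weight conjecture holds for all blocks of all
finite groups if and only if it holds for the groups `X_n`, `n ∈ S`, where `S` is any infinite set; and
the same is true for any other relation between the two numbers.
-/

set_option autoImplicit false

open Pool.Agent.H373.BU

theorem Pool.Agent.Results.MP_78bba1_al.MatrixExtensions.result
    (p : ℕ) [Fact p.Prime] (k : Type) [Field k] [IsAlgClosed k]
    [CharP k p] (q : ℕ) (hq : 1 < q) (hpq : q.Coprime p) :
    (∀ (G : Type) [Group G] [Finite G] (n : ℕ), Nat.card G ^ 2 + 3 * Nat.card G ≤ n →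
      Repro p k G (XG n q)) ∧
    ∀ S : Set ℕ, S.Infinite →
      ((∀ (G : Type) [Group G] [Finite G], AWC p k G) ↔ ∀ n ∈ S, AWC p k (XG n q)) ∧
      ∀ R : ℕ → ℕ → Prop, (∀ (G : Type) [Group G] [Finite G] (B : Blk k G), R B.l (B.w p)) ↔
        ∀ n ∈ S, ∀ B : Blk k (XG n q), R B.l (B.w p) :=
  awc_main p k q hq hpq
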