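import Pool.Agent.H378.RS.Aw

/-!
# The weight conjecture for a class of blocks is decided by one residue class

Let `p` be a prime, `F` an algebraically closed field of characteristic `p` and `red` a ring
homomorphism from the ring of the algebraic integers of `ℂ` to `F`. A block of `G` is given by its
central character, an `F`-algebra homomorphism `B` from the class functions `G → F` (the centre of
`F[G]`) to `F` (`IsBlock`); the one of the principal block is the augmentation map `prin F G`.
From the library: `numIrrBlock B = l(B)`, the number of the irreducible characters of `G` over `F` in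
`B`, and `numWt p red B = w(B)`, the number of the `G`-classes of weights of `B`. The conjecture is
`l(B) = w(B)`. In `Pool/Agent/H378/RS/Aw.lean`, `Nf.lean`, `Two.lean`:

* `ClW p red Y`: the class `Y` of blocks of finite groups is closed under wreath products and powers:
  if it contains the block `B` of `G` then it contains the blocks of `G ≀ C` over `B ⊗ ⋯ ⊗ B`
  (`OverW`) for every group `C` of prime order (if `|C| ≠ p` only for `B` of positive defect, then
  there is only one) and the block `B ⊗ ⋯ ⊗ B` of `G ^ n` (`OverP`, for `B` of positive defect);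
* `AllW p red Y P`: `P |G| l(B) w(B)` for all `(G, B)` in `Y`;
* `Cl t u v`: `u ≤ t v` and `v ≤ t u`, or `|u - v| ≤ t`;
* `Rs n₀ m r x ε g u v`: if `n₀ ≤ g ≤ x` and `u - v ≡ r` modulo `m` then `Cl (x ^ ε) u v`;
* `ClG X`: the class `X` of groups is closed under powers and under wreath products with groups of
  prime order.

Idea of the proof. Let `B` be a block with `l = l(B) > w = w(B)` and `q` a prime. For the block over
`B ⊗ ⋯ ⊗ B` of `G ≀ C_s` the numbers are `(l^s + c l)/s`, `(w^s + c w)/s`, with `c = s² - 1` for
`s ≠ p` and `c = p - 1` for `s = p`. Wreath products with `C_q` make `l - w` prime to `q`; suitable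
powers make `l`, `w` Teichmüller representatives modulo `q ^ (a + 1)`; then `C_s` multiplies them by
`s`, and `C_q` applies `x ↦ (x^q + c x)/q`. By the lemma of Hensel and the theorem of Dirichlet every
residue of the difference occurs, and the sizes are under control.
-/

set_option autoImplicit false

namespace Pool.Agent.Results.MP_78bba1_al.OneResidueClass

open Pool.Agent.H378.RS
open Pool.Agent.Y63.NV (IsClassFun IsBlock numIrrBlock)
open Pool.Agent.E8helper60.AW (prin numWt)

/-- **Alperin's weight conjecture for a class of blocks is decided by one residue class.** Let `Y` be a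
class of blocks closed under wreath products and powers as in `ClW`, `q` a prime (`q = p` is allowed)
and `a`, `n₀` natural numbers.
(1) For every integer `r`: `l(B) = w(B)` for all blocks in `Y` if and only if for every `ε > 0` there
are arbitrarily large `x` such that `l(B)` and `w(B)` are equal up to the factor `x ^ ε` or differ by at
most `x ^ ε`, for the blocks in `Y` of groups with `n₀ ≤ |G| ≤ x` for which `l(B) - w(B) ≡ r` modulo
`q ^ a`.
(2) If `q ^ a` does not divide `r`: `l(B) = w(B)` for all blocks in `Y` if and only if for no block in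
`Y` of a group with `|G| ≥ n₀` `l(B) - w(B) ≡ r` modulo `q ^ a`.
(3) If `l(B) ≠ w(B)` for some block in `Y` then there is `δ > 0` such that for all large `x` and ALL
integers `r` there is a block in `Y` of a group with `n₀ ≤ |G| ≤ x`, `l(B) - w(B) ≡ r` modulo `q ^ a`,
`l(B) ≥ x ^ δ w(B)` and `l(B) - w(B) ≥ x ^ δ`; or the same is true with `l` and `w` exchanged in the two
inequalities.
(4), (5) The condition `ClW` holds for the class of all blocks, and for the class of the principal
blocks, of the finite groups in a class `X` closed under powers and wreath products with groups of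
prime order (for instance of all finite groups). -/
theorem result (p : ℕ) [Fact p.Prime] (F : Type) [Field F] [IsAlgClosed F] [CharP F p]
    (red : integralClosure ℤ ℂ →+* F) :
    (∀ Y : (G : Type) → Group G → ((G → F) → F) → Prop, ClW p red Y →
      ∀ (q : ℕ), q.Prime → ∀ a n₀ : ℕ,
      (∀ r : ℤ, AllW p red Y (fun _ l w => l = w) ↔ ∀ ε : ℝ, 0 < ε → ∀ x₀ : ℝ, ∃ x : ℝ, x₀ ≤ x ∧
        AllW p red Y (Rs n₀ ((q : ℤ) ^ a) r x ε)) ∧
      (∀ r : ℤ, ¬ (q : ℤ) ^ a ∣ r → (AllW p red Y (fun _ l w => l = w) ↔
        AllW p red Y (fun g l w => n₀ ≤ g → ¬ (q : ℤ) ^ a ∣ ((l : ℤ) - w) - r))) ∧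
      (¬ AllW p red Y (fun _ l w => l = w) → ∃ δ : ℝ, 0 < δ ∧ ∃ x₀ : ℝ,
        (∀ x : ℝ, x₀ ≤ x → ∀ r : ℤ, ∃ (G : Type) (i : Group G) (B : (G → F) → F), Y G i B ∧
          n₀ ≤ Nat.card G ∧ (Nat.card G : ℝ) ≤ x ∧
          (q : ℤ) ^ a ∣ ((numIrrBlock B : ℤ) - numWt p red B) - r ∧
          x ^ δ * numWt p red B ≤ numIrrBlock B ∧
          x ^ δ ≤ (numIrrBlock B : ℝ) - numWt p red B) ∨
        (∀ x : ℝ, x₀ ≤ x → ∀ r : ℤ, ∃ (G : Type) (i : Group G) (B : (G → F) → F), Y G i B ∧
          n₀ ≤ Nat.card G ∧ (Nat.card G : ℝ) ≤ x ∧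
          (q : ℤ) ^ a ∣ ((numIrrBlock B : ℤ) - numWt p red B) - r ∧
          x ^ δ * numIrrBlock B ≤ numWt p red B ∧
          x ^ δ ≤ (numWt p red B : ℝ) - numIrrBlock B))) ∧
    (∀ X : ∀ (G : Type) [Group G], Prop, ClG X →
      ClW p red (fun G _ B => Finite G ∧ X G ∧ IsBlock B) ∧
      ClW p red (fun G _ B => Finite G ∧ X G ∧ IsBlock B ∧
        ∀ f : G → F, IsClassFun f → B f = prin F G f)) ∧
    ClG (fun _ _ => True) :=
  ⟨fun _ hY _ hq a n₀ => ⟨fun r => hY.res hq a n₀ r, fun _ hr => hY.forb hq a n₀ hr,
    fun h => hY.all hq a n₀ h⟩, fun _ hX => ⟨clW_all hX, clW_prin hX⟩,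
    ⟨fun _ _ _ _ _ _ => trivial, fun _ _ _ _ _ _ _ _ => trivial⟩⟩

end Pool.Agent.Results.MP_78bba1_al.OneResidueClass
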